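import Mathlib

/-!
# A distance-regular graph that is not core-complete (`MP_06b6d5_co`, Q1)

The Doob graph `Sh □ Sh` (Cartesian square of the Shrikhande graph, 256 vertices, intersection
array `{12,9,6,3;1,2,3,4}`) is distance-regular.  Since `Sh` is the Cayley graph of
`(ℤ/4)²` with connection set `{±(1,0), ±(0,1), ±(1,1)}`, the map `(x, y) ↦ x + y` is a
homomorphism `Sh □ Sh → Sh`.  Hence the core of `Sh □ Sh` embeds in `Sh`; it is not complete
since `Sh □ Sh` has no 4-clique and is not 3-colourable.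
-/

namespace Pool.Agent.Results.MP_06b6d5_co.DoobNotCoreComplete

open SimpleGraph

/-- A graph is a *core* if each of its endomorphisms is an automorphism. -/
def IsCore {V : Type*} (G : SimpleGraph V) : Prop :=
  ∀ f : G →g G, ∃ e : G ≃g G, ∀ v, e v = f v

/-- The induced subgraph of `G` on `W` is a *core of `G`*: it is a core and `G` admits a
homomorphism to it. -/
def IsCoreOf {V : Type*} (G : SimpleGraph V) (W : Set V) : Prop :=
  IsCore (G.induce W) ∧ Nonempty (G →g G.induce W)

/-- `G` is *core-complete*: its core (an induced subgraph `G[W]` which is a core and to which `G`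
maps) is isomorphic to `G` or complete. -/
def CoreComplete {V : Type*} (G : SimpleGraph V) : Prop :=
  ∃ W : Set V, IsCoreOf G W ∧ (Nonempty (G ≃g G.induce W) ∨ G.induce W = ⊤)

/-- A connected graph is *distance-regular* if there are numbers `b i`, `c i` such that for all
`u, v` at distance `i` the vertex `v` has exactly `b i` neighbours at distance `i + 1` from `u`
and exactly `c i` neighbours at distance `i - 1` from `u`. -/
def DistanceRegular {V : Type*} (G : SimpleGraph V) : Prop :=
  G.Connected ∧ ∃ b c : ℕ → ℕ, ∀ u v : V, ∀ i : ℕ, G.dist u v = i →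
    {w | G.Adj v w ∧ G.dist u w = i + 1}.ncard = b i ∧
    {w | G.Adj v w ∧ G.dist u w + 1 = i}.ncard = c i

/-! ### The Shrikhande graph and its Cartesian square -/

/-- Vertices of the Shrikhande graph. -/
abbrev Z := ZMod 4 × ZMod 4

/-- The weight of a vector of `(ℤ/4)²`: `0` at `0`, `1` on the connection set
`{±(1,0), ±(0,1), ±(1,1)}` and `2` elsewhere. -/
def wt (d : Z) : ℕ :=
  if d = 0 then 0
  else if d = (1, 0) ∨ d = (3, 0) ∨ d = (0, 1) ∨ d = (0, 3) ∨ d = (1, 1) ∨ d = (3, 3) then 1
  else 2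

/-- The Shrikhande graph: the Cayley graph of `(ℤ/4)²` with connection set
`{±(1,0), ±(0,1), ±(1,1)}`. -/
def Sh : SimpleGraph Z where
  Adj x y := wt (y - x) = 1
  symm := ⟨by
    have h : ∀ d : Z, wt d = 1 → wt (-d) = 1 := by decide +kernel
    intro x y hxy
    have := h _ hxy
    rwa [neg_sub] at this⟩
  loopless := ⟨by
    intro x hx
    rw [sub_self] at hx
    exact absurd hx (by decide)⟩

/-- The Doob graph `Sh □ Sh`. -/
def Doob : SimpleGraph (Z × Z) := Sh □ Sh

/-! ### Distances from a potential -/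

/-- A function `D` satisfying the local conditions below is the distance of `G`, and `G` is
connected. -/
theorem dist_of_potential {V : Type*} [Nonempty V] (G : SimpleGraph V) (D : V → V → ℕ)
    (h0 : ∀ u v, D u v = 0 ↔ u = v)
    (h1 : ∀ u v w, G.Adj v w → D u w ≤ D u v + 1)
    (h2 : ∀ u v, u ≠ v → ∃ w, G.Adj v w ∧ D u v = D u w + 1) :
    G.Connected ∧ ∀ u v, G.dist u v = D u v := by
  have hwalk : ∀ n : ℕ, ∀ u v, D u v = n → ∃ p : G.Walk u v, p.length = n := by
    intro n
    induction n with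
    | zero =>
      intro u v h
      obtain rfl := (h0 u v).1 h
      exact ⟨Walk.nil, rfl⟩
    | succ n ih =>
      intro u v h
      have hne : u ≠ v := by
        intro e
        have := (h0 u v).2 e
        omega
      obtain ⟨w, hw, hD⟩ := h2 u v hne
      obtain ⟨p, hp⟩ := ih u w (by omega)
      exact ⟨p.append (Walk.cons hw.symm Walk.nil), by simp [Walk.length_append, hp]⟩
  have hlow : ∀ u v (p : G.Walk u v), ∀ x, D x v ≤ D x u + p.length := by
    intro u v p
    induction p with
    | nil => intro x; simp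
    | cons h p ih =>
      intro x
      have a := ih x
      have b := h1 x _ _ h
      rw [Walk.length_cons]
      omega
  have hconn : G.Connected := by
    rw [connected_iff]
    refine ⟨fun u v => ?_, inferInstance⟩
    obtain ⟨p, _⟩ := hwalk _ u v rfl
    exact ⟨p⟩
  refine ⟨hconn, fun u v => ?_⟩
  apply le_antisymm
  · obtain ⟨p, hp⟩ := hwalk _ u v rfl
    rw [← hp]
    exact dist_le p
  · obtain ⟨p, hp⟩ := hconn.exists_walk_length_eq_dist u v
    have := hlow u v p u
    rw [(h0 u u).2 rfl] at this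
    omega

/-- The weight on `(ℤ/4)² × (ℤ/4)²`. -/
def W2 (d : Z × Z) : ℕ := wt d.1 + wt d.2

theorem doob_adj (x y : Z × Z) : Doob.Adj x y ↔
    (wt (y.1 - x.1) = 1 ∧ x.2 = y.2) ∨ (wt (y.2 - x.2) = 1 ∧ x.1 = y.1) := by
  unfold Doob
  rw [boxProd_adj]
  rfl

/-- Adjacency in terms of the difference. -/
def adjd (d : Z × Z) : Prop := (wt d.1 = 1 ∧ d.2 = 0) ∨ (wt d.2 = 1 ∧ d.1 = 0)

instance : DecidablePred adjd := fun _ => by unfold adjd; infer_instance

theorem doob_adj' (x y : Z × Z) : Doob.Adj x y ↔ adjd (y - x) := by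
  rw [doob_adj]
  unfold adjd
  rw [Prod.fst_sub, Prod.snd_sub, sub_eq_zero, sub_eq_zero, eq_comm (a := x.2),
    eq_comm (a := x.1)]

theorem wt_zero (d : Z) : wt d = 0 ↔ d = 0 := by
  revert d; decide +kernel

theorem W2_zero (d : Z × Z) : W2 d = 0 ↔ d = 0 := by
  unfold W2
  rw [Nat.add_eq_zero_iff, wt_zero, wt_zero]
  constructor
  · rintro ⟨h1, h2⟩
    exact Prod.ext h1 h2
  · rintro rfl
    exact ⟨rfl, rfl⟩

theorem wt_lip (d e : Z) (h : wt e = 1) : wt (d + e) ≤ wt d + 1 := by
  revert d e; decide +kernel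

theorem wt_down (d : Z) (h : d ≠ 0) : ∃ e, wt e = 1 ∧ wt d = wt (d + e) + 1 := by
  revert d; decide +kernel

theorem doob_dist : Doob.Connected ∧ ∀ u v, Doob.dist u v = W2 (v - u) := by
  apply dist_of_potential Doob (fun u v => W2 (v - u))
  · intro u v
    rw [W2_zero, sub_eq_zero, eq_comm]
  · intro u v w h
    rw [doob_adj'] at h
    have e : w - u = (v - u) + (w - v) := by abel
    rw [e]
    generalize v - u = a at *
    generalize w - v = b at *
    unfold W2
    rw [Prod.fst_add, Prod.snd_add]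
    rcases h with ⟨h, h'⟩ | ⟨h, h'⟩
    · rw [h', add_zero]
      have := wt_lip a.1 b.1 h
      omega
    · rw [h', add_zero]
      have := wt_lip a.2 b.2 h
      omega
  · intro u v huv
    have hd : v - u ≠ 0 := fun h => huv (sub_eq_zero.1 h).symm
    by_cases h1 : (v - u).1 = 0
    · have h2 : (v - u).2 ≠ 0 := fun h => hd (Prod.ext h1 h)
      obtain ⟨e, he, he'⟩ := wt_down _ h2
      refine ⟨v + (0, e), ?_, ?_⟩
      · rw [doob_adj', add_sub_cancel_left]
        exact Or.inr ⟨he, rfl⟩
      · have : v + (0, e) - u = (v - u) + (0, e) := by abel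
        rw [this]
        unfold W2
        rw [Prod.fst_add, Prod.snd_add]
        simp only [add_zero]
        omega
    · obtain ⟨e, he, he'⟩ := wt_down _ h1
      refine ⟨v + (e, 0), ?_, ?_⟩
      · rw [doob_adj', add_sub_cancel_left]
        exact Or.inl ⟨he, rfl⟩
      · have : v + (e, 0) - u = (v - u) + (e, 0) := by abel
        rw [this]
        unfold W2
        rw [Prod.fst_add, Prod.snd_add]
        simp only [add_zero]
        omega

/-! ### Distance-regularity -/

theorem up1 (d : Z) :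
    (Finset.univ.filter (fun e : Z => wt e = 1 ∧ wt (d + e) = wt d + 1)).card
      = 6 - 3 * wt d := by
  revert d; decide +kernel

theorem down1 (d : Z) :
    (Finset.univ.filter (fun e : Z => wt e = 1 ∧ wt (d + e) + 1 = wt d)).card = wt d := by
  revert d; decide +kernel

theorem wt_le (d : Z) : wt d ≤ 2 := by
  revert d; decide +kernel

theorem split (d : Z × Z) (P : ℕ → Prop) [DecidablePred P] :
    (Finset.univ.filter (fun w : Z × Z => adjd (w - d) ∧ P (W2 w))).card
      = (Finset.univ.filter (fun e : Z => wt e = 1 ∧ P (wt (d.1 + e) + wt d.2))).card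
        + (Finset.univ.filter (fun e : Z => wt e = 1 ∧ P (wt d.1 + wt (d.2 + e)))).card := by
  have i1 : Function.Injective (fun e : Z => ((d.1 + e, d.2) : Z × Z)) := by
    intro a b h
    exact add_left_cancel (Prod.ext_iff.1 h).1
  have i2 : Function.Injective (fun e : Z => ((d.1, d.2 + e) : Z × Z)) := by
    intro a b h
    exact add_left_cancel (Prod.ext_iff.1 h).2
  rw [← Finset.card_image_of_injective _ i1, ← Finset.card_image_of_injective _ i2,
    ← Finset.card_union_of_disjoint]
  · congr 1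
    ext w
    simp only [Finset.mem_filter, Finset.mem_univ, true_and, Finset.mem_union, Finset.mem_image]
    unfold adjd W2
    constructor
    · rintro ⟨h1 | h1, h2⟩
      · left
        obtain ⟨h1, h1'⟩ := h1
        rw [Prod.snd_sub, sub_eq_zero] at h1'
        refine ⟨w.1 - d.1, ⟨h1, ?_⟩, ?_⟩
        · rw [add_sub_cancel, ← h1']
          exact h2
        · rw [add_sub_cancel, ← h1']
      · right
        obtain ⟨h1, h1'⟩ := h1
        rw [Prod.fst_sub, sub_eq_zero] at h1'
        refine ⟨w.2 - d.2, ⟨h1, ?_⟩, ?_⟩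
        · rw [add_sub_cancel, ← h1']
          exact h2
        · rw [add_sub_cancel, ← h1']
    · rintro (⟨e, ⟨h1, h2⟩, rfl⟩ | ⟨e, ⟨h1, h2⟩, rfl⟩)
      · refine ⟨Or.inl ⟨?_, ?_⟩, h2⟩
        · rw [Prod.fst_sub, add_sub_cancel_left]
          exact h1
        · rw [Prod.snd_sub, sub_self]
      · refine ⟨Or.inr ⟨?_, ?_⟩, h2⟩
        · rw [Prod.snd_sub, add_sub_cancel_left]
          exact h1
        · rw [Prod.fst_sub, sub_self]
  · rw [Finset.disjoint_left]
    intro w h1 h2
    simp only [Finset.mem_filter, Finset.mem_univ, true_and, Finset.mem_image] at h1 h2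
    obtain ⟨e, ⟨h1, -⟩, rfl⟩ := h1
    obtain ⟨f, -, h3⟩ := h2
    have h4 := (Prod.ext_iff.1 h3).1
    have h5 : e = 0 := by
      have : d.1 = d.1 + e := h4
      exact left_eq_add.1 this
    rw [h5] at h1
    exact absurd h1 (by decide)

theorem count_up (d : Z × Z) :
    (Finset.univ.filter (fun w : Z × Z => adjd (w - d) ∧ W2 w = W2 d + 1)).card
      = 12 - 3 * W2 d := by
  rw [split d (fun n => n = W2 d + 1)]
  have a1 : (Finset.univ.filter (fun e : Z => wt e = 1 ∧ wt (d.1 + e) + wt d.2 = W2 d + 1))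
      = (Finset.univ.filter (fun e : Z => wt e = 1 ∧ wt (d.1 + e) = wt d.1 + 1)) := by
    apply Finset.filter_congr
    intro e _
    unfold W2
    constructor
    · rintro ⟨h1, h2⟩; exact ⟨h1, by omega⟩
    · rintro ⟨h1, h2⟩; exact ⟨h1, by omega⟩
  have a2 : (Finset.univ.filter (fun e : Z => wt e = 1 ∧ wt d.1 + wt (d.2 + e) = W2 d + 1))
      = (Finset.univ.filter (fun e : Z => wt e = 1 ∧ wt (d.2 + e) = wt d.2 + 1)) := by
    apply Finset.filter_congr
    intro e _
    unfold W2
    constructor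
    · rintro ⟨h1, h2⟩; exact ⟨h1, by omega⟩
    · rintro ⟨h1, h2⟩; exact ⟨h1, by omega⟩
  rw [a1, a2, up1, up1]
  have := wt_le d.1
  have := wt_le d.2
  unfold W2
  omega

theorem count_down (d : Z × Z) :
    (Finset.univ.filter (fun w : Z × Z => adjd (w - d) ∧ W2 w + 1 = W2 d)).card = W2 d := by
  rw [split d (fun n => n + 1 = W2 d)]
  have a1 : (Finset.univ.filter (fun e : Z => wt e = 1 ∧ wt (d.1 + e) + wt d.2 + 1 = W2 d))
      = (Finset.univ.filter (fun e : Z => wt e = 1 ∧ wt (d.1 + e) + 1 = wt d.1)) := by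
    apply Finset.filter_congr
    intro e _
    unfold W2
    constructor
    · rintro ⟨h1, h2⟩; exact ⟨h1, by omega⟩
    · rintro ⟨h1, h2⟩; exact ⟨h1, by omega⟩
  have a2 : (Finset.univ.filter (fun e : Z => wt e = 1 ∧ wt d.1 + wt (d.2 + e) + 1 = W2 d))
      = (Finset.univ.filter (fun e : Z => wt e = 1 ∧ wt (d.2 + e) + 1 = wt d.2)) := by
    apply Finset.filter_congr
    intro e _
    unfold W2
    constructor
    · rintro ⟨h1, h2⟩; exact ⟨h1, by omega⟩
    · rintro ⟨h1, h2⟩; exact ⟨h1, by omega⟩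
  rw [a1, a2, down1, down1]
  rfl

theorem transl (u v : Z × Z) (P : ℕ → Prop) [DecidablePred P] :
    {w | Doob.Adj v w ∧ P (Doob.dist u w)}.ncard
      = (Finset.univ.filter (fun w : Z × Z => adjd (w - (v - u)) ∧ P (W2 w))).card := by
  have e : {w | Doob.Adj v w ∧ P (Doob.dist u w)}
      = (fun w => w + u) '' {w : Z × Z | adjd (w - (v - u)) ∧ P (W2 w)} := by
    ext w
    simp only [Set.mem_ofPred_eq, Set.mem_image]
    constructor
    · rintro ⟨h1, h2⟩
      refine ⟨w - u, ⟨?_, ?_⟩, sub_add_cancel _ _⟩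
      · rw [doob_adj'] at h1
        rwa [sub_sub_sub_cancel_right]
      · rwa [doob_dist.2] at h2
    · rintro ⟨x, ⟨h1, h2⟩, rfl⟩
      refine ⟨?_, ?_⟩
      · rw [doob_adj']
        rwa [sub_sub_eq_add_sub] at h1
      · rw [doob_dist.2, add_sub_cancel_right]
        exact h2
  rw [e, Set.ncard_image_of_injective _ (add_left_injective u),
    Set.ncard_eq_toFinset_card']
  congr 1
  ext w
  simp

theorem doob_distanceRegular : DistanceRegular Doob := by
  refine ⟨doob_dist.1, fun i => 12 - 3 * i, fun i => i, fun u v i hi => ⟨?_, ?_⟩⟩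
  · have hi' := hi
    rw [doob_dist.2] at hi'
    rw [transl u v (fun n => n = i + 1), ← hi']
    exact count_up (v - u)
  · have hi' := hi
    rw [doob_dist.2] at hi'
    rw [transl u v (fun n => n + 1 = i)]
    rw [← hi']
    exact count_down (v - u)

/-! ### Cliques, colourings and the folding endomorphism -/

theorem fin3 (p q a b : Fin 3) (h1 : p ≠ a) (h2 : p ≠ b) (h3 : q ≠ a) (h4 : q ≠ b)
    (h5 : a ≠ b) : p = q := by
  revert p q a b; decide

/-- The Shrikhande graph is not 3-colourable. -/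
theorem sh_not_three (c : Z → Fin 3) (hc : ∀ x y, Sh.Adj x y → c x ≠ c y) : False := by
  have h : ∀ x y : Z, wt (y - x) = 1 → c x ≠ c y := fun x y h => hc x y h
  have e1 : c (0, 0) = c (2, 1) :=
    fin3 _ _ (c (1, 0)) (c (1, 1)) (h _ _ (by decide)) (h _ _ (by decide))
      (h _ _ (by decide)) (h _ _ (by decide)) (h _ _ (by decide))
  have e2 : c (2, 1) = c (3, 0) :=
    fin3 _ _ (c (2, 0)) (c (3, 1)) (h _ _ (by decide)) (h _ _ (by decide))
      (h _ _ (by decide)) (h _ _ (by decide)) (h _ _ (by decide))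
  exact h (0, 0) (3, 0) (by decide) (e1.trans e2)

theorem doob_not_three (c : Z × Z → Fin 3) (hc : ∀ x y, Doob.Adj x y → c x ≠ c y) : False :=
  sh_not_three (fun x => c (x, 0)) (fun x y h => hc _ _ (by
    rw [doob_adj]
    exact Or.inl ⟨h, rfl⟩))

/-- The Shrikhande graph has no 4-clique. -/
theorem sh_clique (a b c : Z) (ha : wt a = 1) (hb : wt b = 1) (hc : wt c = 1)
    (hab : wt (b - a) = 1) (hac : wt (c - a) = 1) (hbc : wt (c - b) = 1) : False := by
  revert a b c; decide +kernel

theorem wt_ne_zero (d : Z) (h : wt d = 1) : d ≠ 0 := by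
  rintro rfl
  exact absurd h (by decide)

theorem doob_clique (a b c : Z × Z) (ha : adjd a) (hb : adjd b) (hc : adjd c)
    (hab : adjd (b - a)) (hac : adjd (c - a)) (hbc : adjd (c - b)) : False := by
  have key : ∀ a b : Z × Z, wt a.1 = 1 → a.2 = 0 → adjd b → adjd (b - a) →
      wt b.1 = 1 ∧ b.2 = 0 := by
    rintro ⟨a1, a2⟩ ⟨b1, b2⟩ h1 h2 h3 h4
    simp only at h1 h2
    subst h2
    rcases h3 with h3 | h3
    · exact h3
    · exfalso
      obtain ⟨h3, h3'⟩ := h3
      simp only at h3 h3'
      subst h3'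
      rcases h4 with ⟨-, h4⟩ | ⟨-, h4⟩
      · simp only [Prod.snd_sub, sub_zero] at h4
        exact wt_ne_zero _ h3 h4
      · simp only [Prod.fst_sub, zero_sub, neg_eq_zero] at h4
        exact wt_ne_zero _ h1 h4
  have key' : ∀ a b : Z × Z, wt a.2 = 1 → a.1 = 0 → adjd b → adjd (b - a) →
      wt b.2 = 1 ∧ b.1 = 0 := by
    rintro ⟨a1, a2⟩ ⟨b1, b2⟩ h1 h2 h3 h4
    simp only at h1 h2
    subst h2
    rcases h3 with h3 | h3
    · exfalso
      obtain ⟨h3, h3'⟩ := h3
      simp only at h3 h3'
      subst h3'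
      rcases h4 with ⟨-, h4⟩ | ⟨-, h4⟩
      · simp only [Prod.snd_sub, zero_sub, neg_eq_zero] at h4
        exact wt_ne_zero _ h1 h4
      · simp only [Prod.fst_sub, sub_zero] at h4
        exact wt_ne_zero _ h3 h4
    · exact h3
  have sub1 : ∀ a b : Z × Z, a.2 = 0 → b.2 = 0 → adjd (b - a) → wt (b.1 - a.1) = 1 := by
    rintro a b h1 h2 (⟨h, -⟩ | ⟨h, -⟩)
    · exact h
    · rw [Prod.snd_sub, h1, h2] at h
      exact absurd h (by decide)
  have sub2 : ∀ a b : Z × Z, a.1 = 0 → b.1 = 0 → adjd (b - a) → wt (b.2 - a.2) = 1 := by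
    rintro a b h1 h2 (⟨h, -⟩ | ⟨h, -⟩)
    · rw [Prod.fst_sub, h1, h2] at h
      exact absurd h (by decide)
    · exact h
  rcases ha with ha | ha
  · have hb' := key a b ha.1 ha.2 hb hab
    have hc' := key a c ha.1 ha.2 hc hac
    exact sh_clique a.1 b.1 c.1 ha.1 hb'.1 hc'.1 (sub1 _ _ ha.2 hb'.2 hab)
      (sub1 _ _ ha.2 hc'.2 hac) (sub1 _ _ hb'.2 hc'.2 hbc)
  · have hb' := key' a b ha.1 ha.2 hb hab
    have hc' := key' a c ha.1 ha.2 hc hac
    exact sh_clique a.2 b.2 c.2 ha.1 hb'.1 hc'.1 (sub2 _ _ ha.2 hb'.2 hab)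
      (sub2 _ _ ha.2 hc'.2 hac) (sub2 _ _ hb'.2 hc'.2 hbc)

/-- The endomorphism `(x, y) ↦ (x + y, 0)`. -/
def fold : Doob →g Doob where
  toFun x := (x.1 + x.2, 0)
  map_rel' := by
    intro x y h
    rw [doob_adj] at h ⊢
    left
    refine ⟨?_, rfl⟩
    rcases h with ⟨h, h'⟩ | ⟨h, h'⟩
    · simp only [h', add_sub_add_right_eq_sub]
      exact h
    · simp only [h', add_sub_add_left_eq_sub]
      exact h

theorem doob_not_core : ¬ IsCore Doob := by
  intro h
  obtain ⟨e, he⟩ := h fold
  have h1 : e ((1, 0), (0, 0)) = e ((0, 0), (1, 0)) := by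
    rw [he, he]
    rfl
  exact absurd (e.injective h1) (by decide)

/-! ### Cores of finite graphs -/

/-- Being a core is invariant under isomorphism. -/
theorem isCore_iso {V W : Type*} {G : SimpleGraph V} {H : SimpleGraph W} (e : G ≃g H)
    (h : IsCore H) : IsCore G := by
  intro f
  obtain ⟨g, hg⟩ := h ((e.toHom.comp f).comp e.symm.toHom)
  refine ⟨(e.trans g).trans e.symm, fun v => ?_⟩
  have h1 := hg (e v)
  have h2 : ((e.toHom.comp f).comp e.symm.toHom) (e v) = e (f v) := by
    show e (f (e.symm (e v))) = e (f v)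
    rw [e.symm_apply_apply]
  show e.symm (g (e v)) = f v
  rw [h1, h2, e.symm_apply_apply]

/-- A bijective endomorphism of a finite graph is an automorphism. -/
theorem iso_of_injective {V : Type*} [Finite V] {G : SimpleGraph V} (f : G →g G)
    (hf : Function.Injective f) : ∃ e : G ≃g G, ∀ v, e v = f v := by
  classical
  have hb : Function.Bijective f := Finite.injective_iff_bijective.1 hf
  let σ : Equiv.Perm V := Equiv.ofBijective f hb
  have hpow : ∀ n : ℕ, ∀ u v, G.Adj u v → G.Adj ((σ ^ n) u) ((σ ^ n) v) := by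
    intro n
    induction n with
    | zero => intro u v h; simpa using h
    | succ n ih =>
      intro u v h
      rw [pow_succ', Equiv.Perm.mul_apply, Equiv.Perm.mul_apply]
      exact f.map_rel (ih u v h)
  obtain ⟨n, hn, hσ⟩ : ∃ n : ℕ, 0 < n ∧ σ ^ n = 1 :=
    ⟨orderOf σ, orderOf_pos σ, pow_orderOf_eq_one σ⟩
  refine ⟨⟨σ, ?_⟩, fun v => rfl⟩
  intro u v
  constructor
  · intro h
    have h1 := hpow (n - 1) _ _ h
    have h2 : ∀ x, (σ ^ (n - 1)) (σ x) = x := by
      intro x
      rw [← Equiv.Perm.mul_apply, ← pow_succ, Nat.sub_add_cancel hn, hσ]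
      rfl
    rwa [h2, h2] at h1
  · intro h
    exact f.map_rel h

/-- Every finite graph has a core. -/
theorem exists_core {V : Type*} [Finite V] (G : SimpleGraph V) : ∃ W, IsCoreOf G W := by
  classical
  have hne : ∃ n : ℕ, ∃ W : Set V, W.ncard = n ∧ Nonempty (G →g G.induce W) :=
    ⟨_, Set.univ, rfl, ⟨⟨fun v => ⟨v, Set.mem_univ v⟩, fun h => h⟩⟩⟩
  obtain ⟨W, hW, ⟨r⟩⟩ := Nat.find_spec hne
  refine ⟨W, ?_, ⟨r⟩⟩
  intro f
  apply iso_of_injective
  -- the image of `f`, as a set of vertices of `G`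
  let W' : Set V := Set.range (fun w : W => (f w : V))
  have hsub : W' ⊆ W := by
    rintro _ ⟨w, rfl⟩
    exact (f w).2
  have hhom : Nonempty (G →g G.induce W') :=
    ⟨⟨fun v => ⟨(f (r v) : V), ⟨r v, rfl⟩⟩, fun h => f.map_rel (r.map_rel h)⟩⟩
  have hle : W.ncard ≤ W'.ncard := by
    rw [hW]
    exact Nat.find_min' hne ⟨W', rfl, hhom⟩
  have heq : W' = W := Set.eq_of_subset_of_ncard_le hsub hle (Set.toFinite W)
  have hsurj : Function.Surjective f := by
    intro w
    have : (w : V) ∈ W' := by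
      rw [heq]
      exact w.2
    obtain ⟨w', hw'⟩ := this
    exact ⟨w', Subtype.ext hw'⟩
  exact (Finite.injective_iff_surjective.2 hsurj)

/-- No complete induced subgraph of the Doob graph receives a homomorphism from it. -/
theorem doob_no_complete (W : Set (Z × Z)) (h : Nonempty (Doob →g Doob.induce W)) :
    Doob.induce W ≠ ⊤ := by
  classical
  intro ht
  obtain ⟨r⟩ := h
  have hadj : ∀ x y : W, x ≠ y → Doob.Adj x y := by
    intro x y hxy
    have : (Doob.induce W).Adj x y := by
      rw [ht]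
      exact hxy
    exact this
  rcases Nat.lt_or_ge 3 (Fintype.card W) with h3 | h3
  · -- a 4-clique
    have hc : Fintype.card (Fin 4) ≤ Fintype.card W := by
      rw [Fintype.card_fin]
      exact h3
    obtain ⟨g⟩ := Function.Embedding.nonempty_of_card_le hc
    have hg : ∀ i j : Fin 4, i ≠ j → adjd ((g j : Z × Z) - g i) := by
      intro i j hij
      have := hadj (g i) (g j) (fun h => hij (g.injective h))
      rwa [doob_adj'] at this
    have hs : ∀ i j : Fin 4, ((g j : Z × Z) - g 0) - ((g i : Z × Z) - g 0) = g j - g i := by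
      intro i j
      abel
    apply doob_clique ((g 1 : Z × Z) - g 0) (g 2 - g 0) (g 3 - g 0) (hg 0 1 (by decide))
      (hg 0 2 (by decide)) (hg 0 3 (by decide))
    · rw [hs]; exact hg 1 2 (by decide)
    · rw [hs]; exact hg 1 3 (by decide)
    · rw [hs]; exact hg 2 3 (by decide)
  · have hc : Fintype.card W ≤ Fintype.card (Fin 3) := by
      rw [Fintype.card_fin]
      exact h3
    obtain ⟨g⟩ := Function.Embedding.nonempty_of_card_le hc
    apply doob_not_three (fun x => g (r x))
    intro x y hxy he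
    have h1 : r x = r y := g.injective he
    have h2 := r.map_rel hxy
    rw [h1] at h2
    exact (SimpleGraph.irrefl _) h2

/-- **A distance-regular graph that is not core-complete.**  The Doob graph `Sh □ Sh` is
distance-regular (in particular connected), it has a core, and every core of it is neither
isomorphic to it nor complete.  In particular it is not core-complete. -/
theorem result :
    DistanceRegular Doob ∧ (∃ W, IsCoreOf Doob W) ∧
      (∀ W, IsCoreOf Doob W → ¬ Nonempty (Doob ≃g Doob.induce W) ∧ Doob.induce W ≠ ⊤) ∧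
      ¬ CoreComplete Doob := by
  have key : ∀ W, IsCoreOf Doob W →
      ¬ Nonempty (Doob ≃g Doob.induce W) ∧ Doob.induce W ≠ ⊤ := by
    rintro W ⟨hW, hr⟩
    refine ⟨?_, doob_no_complete W hr⟩
    rintro ⟨e⟩
    exact doob_not_core (isCore_iso e hW)
  refine ⟨doob_distanceRegular, exists_core Doob, key, ?_⟩
  rintro ⟨W, hW, h | h⟩
  · exact (key W hW).1 h
  · exact (key W hW).2 h

end Pool.Agent.Results.MP_06b6d5_co.DoobNotCoreComplete
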